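import Pool.Agent.Lib.MP_977c67_al.DetConv

/-!
A finitely generated periodic semigroup has deterministic context-free word problem if and only
if it is finite.
-/

set_option autoImplicit false

namespace Pool.Agent.Results.MP_977c67_al.DetFinite

open Pool.Agent.Lib.MP_977c67_al

theorem result : ∀ (S : Type) [Semigroup S] (A : Finset S),
    Subsemigroup.closure (A : Set S) = ⊤ →
    (∀ s : S, (Subsemigroup.closure ({s} : Set S) : Set S).Finite) →
    (IsDetContextFree (wordProblem A) ↔ Finite S) :=
  fun _ _ _ gen per => ⟨DPDA.main gen per, fun _ => DPDA.conv⟩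

end Pool.Agent.Results.MP_977c67_al.DetFinite
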