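import Pool.Agent.Lib.MP_977c67_al.Rename

/-!
An infinite two-generated nil semigroup with context-free word problem.
-/

set_option autoImplicit false

namespace Pool.Agent.Results.MP_977c67_al.NilTwoGen

/-- `power s n` is the product of `n + 1` factors `s`. -/
def power {S : Type} [Semigroup S] (s : S) : ℕ → S
  | 0 => s
  | n + 1 => power s n * s

/-- The letters of a nonempty word. -/
def letters {α : Type} (u : FreeSemigroup α) : List α := u.head :: u.tail

/-- The element of `S` represented by a nonempty word over `A ⊆ S`. -/
def value {S : Type} [Semigroup S] {A : Finset S} (u : FreeSemigroup A) : S :=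
  FreeSemigroup.lift (fun a : A => (a : S)) u

/-- The word problem of `S` with respect to `A`: all words `u # v^rev` with `u`, `v` nonempty
words over `A` representing the same element; the marker is `none`. -/
def wordProblem {S : Type} [Semigroup S] (A : Finset S) : Language (Option A) :=
  {w | ∃ u v : FreeSemigroup A, value u = value v ∧
    w = (letters u).map some ++ [none] ++ (letters v).reverse.map some}

open Pool.Agent.Lib.MP_977c67_al in
theorem result :
    ∃ (S : Type) (_ : Semigroup S) (A : Finset S) (z : S),
      Infinite S ∧ A.card = 2 ∧ Subsemigroup.closure (A : Set S) = ⊤ ∧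
      (∀ s : S, (Subsemigroup.closure ({s} : Set S) : Set S).Finite) ∧
      (∀ s : S, z * s = z ∧ s * z = z) ∧ (∀ s : S, ∃ n : ℕ, power s n = z) ∧
      (wordProblem A).IsContextFree := by
  classical
  obtain ⟨u0, hu0⟩ := exists_idl
  let A : Finset SG := Finset.univ.image gen
  have hA : (A : Set SG) = Set.range gen := by
    rw [Finset.coe_image, Finset.coe_univ, Set.image_univ]
  let e0 : Bool → A := fun a => ⟨gen a, Finset.mem_image_of_mem _ (Finset.mem_univ a)⟩
  have he0 : Function.Bijective e0 := by
    refine ⟨fun a b h => gen_injective (congrArg Subtype.val h), ?_⟩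
    rintro ⟨x, hx⟩
    obtain ⟨a, -, rfl⟩ := Finset.mem_image.1 hx
    exact ⟨a, rfl⟩
  let e : Bool ≃ A := Equiv.ofBijective e0 he0
  have hval : ∀ u : FreeSemigroup Bool, value (FreeSemigroup.map e u) = mk u := by
    intro u
    induction u using FreeSemigroup.recOnMul with
    | ih1 a => rfl
    | ih2 a v h1 h2 =>
      rw [map_mul, mk_mul, ← h1, ← h2]
      exact map_mul (FreeSemigroup.lift (fun a : A => (a : SG))) _ _
  have hlet : ∀ u : FreeSemigroup Bool, letters (FreeSemigroup.map e u) = (toL u).map e := by
    intro u
    induction u using FreeSemigroup.recOnMul with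
    | ih1 a => rfl
    | ih2 a v h1 h2 =>
      rw [map_mul, toL_mul, List.map_append, ← h1, ← h2]
      rfl
  have hsurj : ∀ u : FreeSemigroup A, ∃ u' : FreeSemigroup Bool, FreeSemigroup.map e u' = u := by
    intro u
    induction u using FreeSemigroup.recOnMul with
    | ih1 a => exact ⟨FreeSemigroup.of (e.symm a), by simp⟩
    | ih2 a v h1 h2 =>
      obtain ⟨a', ha'⟩ := h1
      obtain ⟨v', hv'⟩ := h2
      exact ⟨a' * v', by rw [map_mul, ha', hv']⟩
  refine ⟨SG, inferInstance, A, mk u0, SG_infinite, ?_, ?_, SG_periodic, ?_, ?_, ?_⟩
  · rw [Finset.card_image_of_injective _ gen_injective]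
    simp
  · rw [hA]; exact SG_gen
  · intro s
    obtain ⟨u, rfl⟩ := mk_surj s
    refine ⟨?_, ?_⟩
    · rw [← mk_mul]
      exact mk_eq.2 (Or.inr ⟨by rw [toL_mul]; exact hu0.append_right _, hu0⟩)
    · rw [← mk_mul]
      exact mk_eq.2 (Or.inr ⟨by rw [toL_mul]; exact hu0.append_left _, hu0⟩)
  · intro s
    obtain ⟨u, rfl⟩ := mk_surj s
    obtain ⟨N, hN⟩ := lpow_idl (w := toL u) (by simp [toL])
    have hp : ∀ n, power (mk u) n = mk (pw u n) := by
      intro n
      induction n with
      | zero => rfl
      | succ n ih => rw [power, ih, pw, mk_mul]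
    refine ⟨N, ?_⟩
    rw [hp]
    refine mk_eq.2 (Or.inr ⟨?_, hu0⟩)
    rw [toL_pw, lpow]
    exact hN.append_right _
  · have h := isContextFree_rename (Equiv.optionCongr e) WP_contextFree
    have hL : wordProblem A =
        ({w | w.map (Equiv.optionCongr e).symm ∈ ({w | WP w} : Language (Option Bool))} :
          Language (Option A)) := by
      ext w
      constructor
      · rintro ⟨u, v, huv, rfl⟩
        obtain ⟨u', rfl⟩ := hsurj u
        obtain ⟨v', rfl⟩ := hsurj v
        rw [hval, hval] at huv
        refine ⟨toL u', toL v', by simp [toL], by simp [toL], ?_, ?_⟩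
        · rcases mk_eq.1 huv with h | h
          · exact Or.inl (congrArg toL h)
          · exact Or.inr h
        · rw [hlet, hlet]
          have k1 : ∀ x, (Equiv.optionCongr e).symm (some (e x)) = some x := fun x =>
            (Equiv.symm_apply_eq _).2 rfl
          have k2 : (Equiv.optionCongr e).symm none = none := (Equiv.symm_apply_eq _).2 rfl
          simp [List.map_map, Function.comp_def, List.map_reverse, k1, k2]
      · rintro ⟨u, v, hu, hv, huv, hw⟩
        obtain ⟨a, u, rfl⟩ := List.exists_cons_of_ne_nil hu
        obtain ⟨b, v, rfl⟩ := List.exists_cons_of_ne_nil hv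
        refine ⟨FreeSemigroup.map e ⟨a, u⟩, FreeSemigroup.map e ⟨b, v⟩, ?_, ?_⟩
        · rw [hval, hval]
          refine mk_eq.2 ?_
          rcases huv with h | h
          · exact Or.inl (toL_inj h)
          · exact Or.inr h
        · rw [hlet, hlet]
          have h2 := congrArg (List.map (Equiv.optionCongr e)) hw
          have h3 : (w.map (Equiv.optionCongr e).symm).map (Equiv.optionCongr e) = w := by
            rw [List.map_map]
            simp
          rw [h3] at h2
          rw [h2]
          simp [toL, List.map_map, Function.comp_def, List.map_reverse]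
    rw [hL]
    exact h

end Pool.Agent.Results.MP_977c67_al.NilTwoGen
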